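import Pool.Agent.J4H24.CA.Dag

/-!
# Refutations whose lines are Boolean functions of inequalities and systems of congruences

Partial answer to `NP ≠ coNP` in the form of Cook and Reckhow (`NP ≠ coNP` if and only if no
propositional proof system is polynomially bounded).

A *test* is a linear inequality in the Boolean variables with arbitrary real coefficients, or a system
of any number of linear congruences with arbitrary integer coefficients and arbitrary moduli. The
lines of the refutations considered here are arbitrary Boolean functions of `k` tests. For one family
of formulas in conjunctive normal form, with `n` variables, we prove two lower bounds.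

1. Dag-like refutations of bounded depth. A line follows from a clause or from earlier lines by a
   sound rule: the cube is partitioned into `p` sets, each given by `κ` inequalities and some
   congruences, and on each of these sets the line is implied by `a` earlier lines. The case `p = 1`
   is an arbitrary semantic rule with `a` premises; the case `a = 1`, `p = 2`, `κ = 0` contains
   resolution over parities, `p = q` branching on a residue modulo `q`, and `κ = 1` branching on an
   inequality, as in stabbing planes. The cost of the rule is the binary logarithm of
   `p n ^ κ (2 n ^ k) ^ (a - 1)`; it is `1` for resolution over parities and `0` for weakening. A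
   refutation in which the rules have cost at most `δ n` and in which the total cost along every path
   is at most `D` has at least `2 ^ (δ n ^ 2 / (n + D)) / n ^ k` lines. So the number of lines is
   `2 ^ Ω(n)` for the depth `O(n)`, and exponential for every depth up to `n ^ (2 - ε)`.

2. Static refutations (unary Sherali–Adams over such lines): a combination of the indicator functions
   of lines, with weights `l i` of any sign on lines on which a clause is false, that is equal to
   `1` plus a combination of lines with nonnegative weights `m j`. The sum of the absolute values of
   the weights is at least `2 ^ (δ n) / n ^ k`. In particular every partition of the cube into such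
   sets on which a clause is false has at least `2 ^ (δ n) / n ^ k` parts.

The formula is an expanding system of linear equations modulo 2, composed with the inner product of
two vectors of 10 bits. The proof uses a pseudo-density (the sum of the signs of the small sets of
equations). The variables are partitioned into the first and the second arguments of the inner
products. Every line is a disjoint union of at most `n ^ k` sets with the property that any two of
their rows are equal or disjoint, and the pseudo-density is almost nonnegative on such sets. For the
refutations of bounded depth a rectangle inside the set of a line is followed along the refutation. A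
potential (the pseudo-measure of the rectangle divided by the square root of its size, with weights
for the fixed blocks and for a closed set of equations) decreases by a factor of at most
`4 s n ^ k` when a walk of cost `Ω(n)` is made in the refutation, and rectangles of maximal
potential are dense, have a closed set of equations and have large pseudo-measure.
-/

namespace Pool.Agent.Results.MP_9cec2c_lc.MixedLinearRefutations

open Pool.Agent.J4H24.NS Pool.Agent.J4H24.CA

/-- There are `δ > 0`, `w`, `C`, `N` such that for every `n ≥ N` there is an unsatisfiable formula
`F` in conjunctive normal form with `n` variables, at most `n ^ C` clauses and at most `w log n`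
literals in each clause, such that for all `k`:

* every refutation of `F` with `s` lines that are Boolean functions of `k` tests, whose rules have
  cost at most `t ≤ δ n` and which has depth at most `D`, satisfies
  `s n ^ k ≥ 2 ^ (δ n ^ 2 / (n + D))`;
* if `S i` and `T j` are given by Boolean functions of `k` tests, on every `S i` some clause of `F`
  is false, `m j ≥ 0`, and `∑ l i [x ∈ S i] = 1 + ∑ m j [x ∈ T j]` for all Boolean `x`, then
  `n ^ k (∑ |l i| + ∑ m j) ≥ 2 ^ (δ n)`, and `n ^ k (1 + a') ∑ |l i| ≥ 2 ^ (δ n)` for the number
  `a'` of the sets `T j`. -/
theorem result : ∃ (δ : ℝ) (w C N : ℕ), 0 < δ ∧ ∀ n ≥ N,
    ∃ F : Finset (Finset (Fin n × Bool)),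
      (∀ y, ∃ D ∈ F, Fals D y) ∧ (∀ D ∈ F, D.card ≤ w * Nat.log 2 n) ∧ F.card ≤ n ^ C ∧
      (∀ k t s D : ℕ, (t : ℝ) ≤ δ * n → Rft F k t s D →
        (2 : ℝ) ^ (δ * n ^ 2 / (n + D)) ≤ s * n ^ k) ∧
      ∀ (k a a' : ℕ) (l : Fin a → ℝ) (S : Fin a → Set (Fin n → Bool)) (m : Fin a' → ℝ)
        (T : Fin a' → Set (Fin n → Bool)),
        (∀ i, Bln k (S i) ∧ ∃ D ∈ F, ∀ x ∈ S i, Fals D x) →
        (∀ j, Bln k (T j) ∧ 0 ≤ m j) →
        (∀ x, ∑ i, l i * (S i).indicator (fun _ => (1 : ℝ)) x =
          1 + ∑ j, m j * (T j).indicator (fun _ => (1 : ℝ)) x) →
        (2 : ℝ) ^ (δ * n) ≤ n ^ k * (∑ i, |l i| + ∑ j, m j) ∧
        (2 : ℝ) ^ (δ * n) ≤ n ^ k * ((1 + a') * ∑ i, |l i|) :=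
  mixed_main

end Pool.Agent.Results.MP_9cec2c_lc.MixedLinearRefutations
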