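import Pool.Agent.J4H24.D3.Fin
import Pool.Agent.J4H24.D3.Exa

/-!
# Static algebraic refutations of CNFs whose coefficients are sums of products

Partial answer to `NP ≠ coNP` in the form of Cook and Reckhow: linear refutations of CNFs in the
ideal proof system of Grochow and Pitassi (Nullstellensatz refutations whose coefficients are given
by circuits), over every field. On the Boolean assignments such a refutation of a CNF `F` is an
identity `∑ C ∈ F, g C x * [x falsifies C] = 1`; only this is assumed below, so multiples of the
Boolean axioms `v ^ 2 - v` are free and their coefficients are arbitrary.

Every coefficient is a sum of `s` products. A product has three parts: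
* arbitrary functions of at most `n ^ (1 - ε)` variables each, every variable occurring in at most
  `n ^ (ε / 40)` of them (`Few`);
* in characteristic other than two, functions such as affine forms, products of functions of one
  variable, or sums of two such products (`Two`), with pairwise disjoint sets of variables (`Pro`);
* a function that is computed by an oblivious algebraic branching program (`OBP`).
The partitions of the variables are different for different products. So the coefficients include
multilinear depth three formulas, and multilinear formulas of any depth below the products of
blocks of `n ^ (1 - ε)` variables. The number `s` of the products, or the width of the programs, is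
exponential.

For characteristic two the hard formula is a pebbling contradiction lifted by an equality gadget,
otherwise a Tseitin contradiction on a random graph of bounded degree lifted by the inner product of
twelve bits; the places of the bits of the gadgets are given by pointers. The formula of the theorem
is a product of the two.
-/

namespace Pool.Agent.Results.MP_9cec2c_lc.ProductCoefficients

open Pool.Agent.J4H24.NS Pool.Agent.J4H24.D3

/-- There is `w` such that for every `ε` with `0 < ε ≤ 1` and every large `n` there is an
unsatisfiable formula `F` in conjunctive normal form with `n` variables, at most `w` literals in each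
clause and at most `(2 * n + 1) ^ w` clauses with the following property. Let `K` be a field. Suppose
that every coefficient `g C` is a sum of `s` functions, each of which is a product of a function `g1`
with the property `Few` (arbitrary functions of at most `n ^ (1 - ε)` variables, every variable in at
most `k ≤ n ^ (ε / 40)` of them, times an oblivious algebraic branching program of width `W` whose
sequence of variables is one of `ℓ` sequences that contain every variable at most `κ` times, with
`4 ^ (κ * ℓ) ≤ n ^ (ε / 40)`) and of a function `g2` with the property `Pro` (functions with the
property `Two` with pairwise disjoint sets of variables), `g2` being absent in characteristic two. If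
the sum of the coefficients of the clauses that are falsified by `x` is one for every assignment `x`,
then `s * W ^ (2 * κ + 3)` is at least `2 ^ (n ^ (ε / 20))`. -/
theorem result : ∃ w : ℕ, ∀ ε : ℝ, 0 < ε → ε ≤ 1 → ∃ N0 : ℕ, ∀ n ≥ N0,
    ∃ F : Finset (Finset (Fin n × Bool)),
    (∀ C ∈ F, C.card ≤ w) ∧ F.card ≤ (2 * n + 1) ^ w ∧ (∀ x, ∃ C ∈ F, Fals C x) ∧
    ∀ (K : Type*) [Field K] (k κ ℓ s W : ℕ),
      (k : ℝ) ≤ (n : ℝ) ^ (ε / 40) → (4 : ℝ) ^ (κ * ℓ) ≤ (n : ℝ) ^ (ε / 40) →
      ∀ S : Fin ℓ → List (Fin n), (∀ j v, (S j).count v ≤ κ) →
      ∀ g : Finset (Fin n × Bool) → Fin s → (Fin n → Bool) → K,
        (∀ C ∈ F, ∀ i, ∃ (j : Fin ℓ) (g1 g2 : (Fin n → Bool) → K),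
          Few K ((n : ℝ) ^ (1 - ε)) k W (S j) g1 ∧ Pro K g2 ∧ ((2 : K) = 0 → ∀ x, g2 x = 1) ∧
          ∀ x, g C i x = g1 x * g2 x) →
        (∀ x, ∑ C ∈ F with Fals C x, ∑ i, g C i x = 1) →
        (2 : ℝ) ^ ((n : ℝ) ^ (ε / 20)) ≤ s * (W : ℝ) ^ (2 * κ + 3) :=
  main

end Pool.Agent.Results.MP_9cec2c_lc.ProductCoefficients
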