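import Pool.Agent.J4H72.OB.RMain
import Pool.Agent.J4H72.OB.RClique

/-!
# Proof systems which combine cutting planes with decision diagrams in several variable orders

By Cook and Reckhow, `NP = coNP` if and only if some propositional proof system is polynomially
bounded. Here an exponential lower bound is proved for all (dag-like, semantic) proof systems whose
lines are of the following kind: an oblivious branching program of width `2 ^ h` sweeps `p` times over
the variables, each time along one of several base orders, and then its last state chooses a linear
inequality with arbitrary real coefficients, whose truth value is the value of the line. In a sweep
the order of the variables may be changed in any way inside of a window of length `w`, and `h`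
variables may be read at any time. A line may be derived if it is implied by a clause of the formula
or by at most `k` earlier lines (whether or not this can be checked efficiently).

For `p = 0` this contains cutting planes with arbitrary coefficients, and for `p = 1`, `w = 0` it
contains the system OBDD(and, weakening, reordering) with a bounded number of orders, and both
systems together.

* The formulas do not depend on the base orders. The number of base orders may be as large as
  `(1 - δ) log n`, where `n` is the number of variables, and `w ≤ n ^ (1 - δ)` for a bounded number of
  base orders.
* Method: halving two disjoint sets of variables once for each base order leaves two sets of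
  polynomial size which are separated in all base orders; pointer variables place a
  clique-colouring formula on them; the lines then have short protocols with two players which end
  with a comparison of two real numbers; monotone real interpolation; and a lower bound for monotone
  real programs which separate cliques from colourings (Jukna's tree argument, with sets of vertices
  as monomials and equivalence relations as clauses).
-/

set_option autoImplicit false

namespace Pool.Agent.Results.MP_9cec2c_lc.SeveralOrders

open Pool.Agent.J4H72.OB

/-- **Exponential lower bound for semantic refutations with sweeping branching programs which choose
a linear inequality, in several variable orders.** -/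
theorem result (δ : ℝ) (h0 : 0 < δ) (h1 : δ ≤ 1) :
    ∃ N : ℕ, ∀ n : ℕ, N ≤ n →
    ∃ F : Finset (Finset (Fin n × Bool)), Unsat F ∧ F.card ≤ n ^ 11 ∧
      (∀ C ∈ F, C.card ≤ 8 * Nat.log 2 n) ∧
      ∀ Ords : Finset (Fin n → ℕ), (∀ π ∈ Ords, Function.Injective π) →
        ∀ w h p k : ℕ, (((w + 1) * 2 ^ Ords.card : ℕ) : ℝ) ≤ (n : ℝ) ^ (1 - δ) →
          (((k + 1) * (p * h + 1) : ℕ) : ℝ) ≤ (n : ℝ) ^ (δ / 9) →
          ∀ Γ : List ((Fin n → Bool) → Bool), Deriv F (Line Ords w h p) k Γ →
            (fun _ => false) ∈ Γ → (2 : ℝ) ^ ((n : ℝ) ^ (δ / 9)) ≤ Γ.length :=
  several_orders t_clique δ h0 h1

end Pool.Agent.Results.MP_9cec2c_lc.SeveralOrders
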