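import Pool.Agent.J4H24.SR.Main2

/-!
# An exponential lower bound for substitution redundancy and dominance without new variables

Partial answer to `NP ≠ coNP` in the form of Cook and Reckhow (`NP ≠ coNP` if and only if no
propositional proof system is polynomially bounded): the proof system `SR⁻`, extended by the
dominance rule for any order of the assignments, is not polynomially bounded, even if derived clauses
may be deleted. Its lines are clauses over the variables of the formula. A clause may be added

* if it is substitution redundant with respect to the clauses that are there: some substitution of
  the variables by constants and literals maps all these clauses, and the new clause, to clauses that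
  follow from the present clauses and the negation of the new clause by unit propagation; the identity
  gives reverse unit propagation (hence all of resolution, up to a linear factor), partial assignments
  give propagation redundancy (`SRed.of_rup`, `SRed.of_pred`), hence blocked clauses, resolution
  asymmetric tautologies, set-blocked clauses and set propagation redundancy, and permutations of the
  variables give symmetry rules, global and local;
* or by dominance (Bogaerts, Gocht, McCreesh, Nordström; for clauses Kołodziejczyk, Thapen): some
  substitution maps all clauses of the formula, but not necessarily the derived clauses, to clauses
  that follow by unit propagation as above, and makes the assignments that falsify the new clause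
  smaller.

Derived clauses may be deleted at any time. (Without restriction on deletion and with one additional
variable these rules simulate extended resolution, by Buss and Thapen.)

The formulas are systems of linear equations modulo 2 with a bounded number of variables in each
equation. Every substitution different from the identity violates some equation in a locally
consistent assignment, even after a random restriction.
-/

namespace Pool.Agent.Results.MP_9cec2c_lc.SubstitutionDominance

open Pool.Agent.J4H24.PR Pool.Agent.J4H24.SR

/-- For every `η > 0` there are `k`, `C`, `N` such that for every `n ≥ N` there is an unsatisfiable
formula `F` in conjunctive normal form with `n` variables, at most `C n²` clauses and at most `k`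
literals in each clause, for which every derivation of the empty clause by substitution redundancy
and by dominance with respect to an arbitrary irreflexive relation `lt` on the assignments, without
new variables and with arbitrary deletion of derived clauses (but not of clauses of `F`), has at least
`2 ^ (n ^ (1 - η))` derived clauses. -/
theorem result (η : ℝ) (hη : 0 < η) : ∃ k C N : ℕ, ∀ n ≥ N,
    ∃ F : Finset (Finset (Fin n × Bool)),
    ¬ Sat (F : Set (Finset (Fin n × Bool))) ∧ (∀ D ∈ F, D.card ≤ k) ∧ F.card ≤ C * n ^ 2 ∧
    ∀ lt : (Fin n → Bool) → (Fin n → Bool) → Prop, (∀ y, ¬ lt y y) →
      ∀ L : List (Finset (Fin n × Bool)),
        DomDerivation lt (F : Set (Finset (Fin n × Bool))) L →
        ∅ ∈ L → (2 : ℝ) ^ ((n : ℝ) ^ (1 - η)) ≤ L.length :=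
  dom_main η hη

end Pool.Agent.Results.MP_9cec2c_lc.SubstitutionDominance
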